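import Pool.Agent.H2.Four2

set_option autoImplicit false

namespace Pool.Agent.Results.MP_58c014_an.Decreasing

open MeasureTheory Set Pool.Agent.H2.Four

/-- the weight `P` -/
noncomputable def P {n : ℕ} (x : Fin n → ℝ) : ℝ :=
  Real.exp (-∑ j, x j) * ∏ k, ∏ j ∈ Finset.Ioi k, (x j - x k) ^ 2

/-- the orthant `[0, ∞)ⁿ` -/
def Q (n : ℕ) : Set (Fin n → ℝ) := {x | ∀ j, 0 ≤ x j}

noncomputable def F (n : ℕ) (t : ℝ) : ℝ := ∫ x in Q n, P x * ∏ j, (√(x j + t))⁻¹

noncomputable def G (n : ℕ) (t : ℝ) : ℝ := ∫ x in Q n, P x * ∏ j, √(x j + t)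

noncomputable def H (n : ℕ) (t : ℝ) : ℝ := ∫ x in Q n, ∫ y in Q n,
  P x * P y * (∑ j, (1 / (x j + t) - 1 / (y j + t))) * ∏ j, √((x j + t) / (y j + t))

theorem QO (n : ℕ) : (volume : Measure (Fin n → ℝ)).restrict (Q n) = volume.restrict (O n) :=
  Measure.restrict_congr_set (Measure.univ_pi_Ioi_ae_eq_Ici (f := fun _ : Fin n => (0 : ℝ))).symm

theorem inv_le {a t : ℝ} (ha : 0 < a) (ht : 0 ≤ t) : (√(a + t))⁻¹ ≤ (√a)⁻¹ :=
  inv_anti₀ (Real.sqrt_pos.2 ha) (Real.sqrt_le_sqrt (by linarith))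

theorem bd1 {n : ℕ} {t : ℝ} (ht : 0 ≤ t) {x : Fin n → ℝ} (hx : x ∈ O n) :
    ∏ j, (√(x j + t))⁻¹ ≤ ∏ j, ((1 + x j) * (√(x j))⁻¹) := by
  refine Finset.prod_le_prod (fun j _ => by positivity) fun j _ => ?_
  have h := mem_O.1 hx j
  exact (inv_le h ht).trans (le_mul_of_one_le_left (by positivity) (by linarith))

theorem bd2 {n : ℕ} {t : ℝ} (ht : 0 ≤ t) {x : Fin n → ℝ} (hx : x ∈ O n) :
    ∏ j, √(x j + t) ≤ (1 + t) ^ n * ∏ j, ((1 + x j) * (√(x j))⁻¹) := by
  rw [show (1 + t) ^ n = ∏ _j : Fin n, (1 + t) by simp, ← Finset.prod_mul_distrib]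
  refine Finset.prod_le_prod (fun j _ => by positivity) fun j _ => ?_
  have h := mem_O.1 hx j
  have h1 : √(x j + t) = (x j + t) * (√(x j + t))⁻¹ := by
    rw [← div_eq_mul_inv, Real.div_sqrt]
  rw [h1, ← mul_assoc]
  exact mul_le_mul (by nlinarith) (inv_le h ht) (by positivity) (by positivity)

/-- the sum of reciprocals -/
noncomputable def s {n : ℕ} (t : ℝ) (x : Fin n → ℝ) : ℝ := ∑ j, 1 / (x j + t)

theorem s_bd {n : ℕ} {t : ℝ} (ht : 0 < t) {x : Fin n → ℝ} (hx : x ∈ O n) :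
    0 ≤ s t x ∧ s t x ≤ n / t := by
  refine ⟨Finset.sum_nonneg fun j _ => by have := mem_O.1 hx j; positivity, ?_⟩
  calc s t x ≤ ∑ _j : Fin n, 1 / t := Finset.sum_le_sum fun j _ =>
        one_div_le_one_div_of_le ht (by linarith [mem_O.1 hx j])
    _ = _ := by simp [div_eq_mul_inv]

theorem goodA {n : ℕ} {t : ℝ} (ht : 0 ≤ t) (φ : (Fin n → ℝ) → ℝ) (mφ : Measurable φ) (C : ℝ)
    (hφ : ∀ x ∈ O n, 0 ≤ φ x ∧ φ x ≤ C) (sy : ∀ x (σ : Equiv.Perm (Fin n)), φ (x ∘ σ) = φ x) :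
    Good (fun x : Fin n → ℝ => φ x * ∏ j, (√(x j + t))⁻¹) ∧
      Good (fun x : Fin n → ℝ => φ x * ∏ j, √(x j + t)) := by
  refine ⟨⟨by fun_prop, fun x hx => mul_nonneg (hφ x hx).1 (by positivity), fun x σ => ?_,
    integ _ (by fun_prop) C fun x hx => ?_⟩,
    ⟨by fun_prop, fun x hx => mul_nonneg (hφ x hx).1 (by positivity), fun x σ => ?_,
    integ _ (by fun_prop) (C * (1 + t) ^ n) fun x hx => ?_⟩⟩
  · rw [sy]; congr 1; exact Equiv.prod_comp σ fun j => (√(x j + t))⁻¹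
  · rw [abs_of_nonneg (mul_nonneg (hφ x hx).1 (by positivity))]
    exact mul_le_mul (hφ x hx).2 (bd1 ht hx) (by positivity) ((hφ x hx).1.trans (hφ x hx).2)
  · rw [sy]; congr 1; exact Equiv.prod_comp σ fun j => √(x j + t)
  · rw [abs_of_nonneg (mul_nonneg (hφ x hx).1 (by positivity)), mul_assoc]
    exact mul_le_mul (hφ x hx).2 (bd2 ht hx) (by positivity) ((hφ x hx).1.trans (hφ x hx).2)

theorem good1 {n : ℕ} {t : ℝ} (ht : 0 ≤ t) :
    Good (fun x : Fin n → ℝ => ∏ j, (√(x j + t))⁻¹) ∧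
      Good (fun x : Fin n → ℝ => ∏ j, √(x j + t)) := by
  simpa using goodA (n := n) ht (fun _ => 1) measurable_const 1 (fun _ _ => by simp)
    fun _ _ => rfl

theorem coord {a b t1 t2 : ℝ} (ha : 0 < a) (hb : 0 < b) (h1 : 0 ≤ t1) (h12 : t1 ≤ t2) :
    (√(a + t2))⁻¹ * √(b + t2) ≤ (√(a ⊓ b + t1))⁻¹ * √(a ⊔ b + t1) := by
  have h2 : 0 < a ⊓ b := lt_min ha hb
  rw [inv_mul_eq_div, inv_mul_eq_div, ← Real.sqrt_div' _ (by linarith),
    ← Real.sqrt_div' _ (by linarith)]
  refine Real.sqrt_le_sqrt ?_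
  rw [div_le_div_iff₀ (by linarith) (by linarith)]
  rcases le_total a b with h | h <;>
    simp only [h, inf_of_le_left, inf_of_le_right, sup_of_le_left, sup_of_le_right] <;> nlinarith

theorem anti (n : ℕ) : AntitoneOn (fun t => F n t * G n t) (Ici 0) := by
  intro t1 h1 t2 h2 h12
  simp only [F, G, QO]
  refine fkg (good1 h2).1 (good1 h2).2 (good1 h1).1 (good1 h1).2 fun x hx y hy => ?_
  rw [← Finset.prod_mul_distrib, ← Finset.prod_mul_distrib]
  exact Finset.prod_le_prod (fun j _ => by positivity) fun j _ =>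
    coord (mem_O.1 hx j) (mem_O.1 hy j) h1 h12

theorem neg (n : ℕ) (hn : 1 ≤ n) (t : ℝ) (ht : 0 < t) : H n t < 0 := by
  have mO := (open_O n).measurableSet
  have ms : Measurable (s (n := n) t) := by unfold s; fun_prop
  have ss : ∀ x (σ : Equiv.Perm (Fin n)), s t (x ∘ σ) = s t x := fun x σ =>
    Equiv.sum_comp σ fun j => 1 / (x j + t)
  obtain ⟨u, hu⟩ : ∃ u : (Fin n → ℝ) → ℝ, u = fun x => ∏ j, √(x j + t) := ⟨_, rfl⟩
  obtain ⟨v, hv⟩ : ∃ v : (Fin n → ℝ) → ℝ, v = fun x => ∏ j, (√(x j + t))⁻¹ := ⟨_, rfl⟩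
  obtain ⟨ε, hε⟩ : ∃ ε : ℝ, ε = t ^ (n + 1) := ⟨_, rfl⟩
  have ε0 : 0 < ε := by rw [hε]; positivity
  have gv : Good v := hv ▸ (good1 ht.le).1
  have gu : Good u := hu ▸ (good1 ht.le).2
  have gA := goodA ht.le (s t) ms _ (fun x hx => s_bd ht hx) ss
  have gsv : Good fun x => s t x * v x := hv ▸ gA.1
  have gsu : Good fun x => s t x * u x := hu ▸ gA.2
  have gssv : Good fun x => s t x ^ 2 * v x := hv ▸ (goodA ht.le (fun x => s t x ^ 2)
    (ms.pow_const 2) ((n / t) ^ 2) (fun x hx => ⟨sq_nonneg _,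
      pow_le_pow_left₀ (s_bd ht hx).1 (s_bd ht hx).2 2⟩) fun x σ => by rw [ss]).1
  have add : ∀ {g g' : (Fin n → ℝ) → ℝ}, Good g → Good g' → Good (fun x => g x + ε * g' x) ∧
      ∫ x in O n, W x * (g x + ε * g' x) =
        (∫ x in O n, W x * g x) + ε * ∫ x in O n, W x * g' x := by
    intro g g' a b
    have e : (fun x => W x * (g x + ε * g' x)) = fun x => W x * g x + ε * (W x * g' x) := by
      funext x; ring
    refine ⟨⟨a.meas.add (b.meas.const_mul _), fun x hx => add_nonneg (a.nn x hx)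
      (mul_nonneg ε0.le (b.nn x hx)), fun x σ => by rw [a.sym, b.sym], ?_⟩, ?_⟩
    · rw [e]; exact a.int.add (b.int.const_mul _)
    · rw [e, integral_add a.int (b.int.const_mul _), integral_const_mul]
  have uv : ∀ x ∈ O n, u x = (∏ j, (x j + t)) * v x := by
    intro x hx
    rw [hu, hv, ← Finset.prod_mul_distrib]
    exact Finset.prod_congr rfl fun j _ => by rw [← div_eq_mul_inv, Real.div_sqrt]
  have key := fkg (add gsu gssv).1 gv gsv (add gu gsv).1 (by
    intro x hx y hy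
    have c1 : x ⊓ y ∈ O n := mem_O.2 fun j => lt_min (mem_O.1 hx j) (mem_O.1 hy j)
    have c2 : x ⊔ y ∈ O n := mem_O.2 fun j => lt_max_of_lt_left (mem_O.1 hx j)
    have e1 : v x * v y = v (x ⊓ y) * v (x ⊔ y) := by
      rw [hv]; simp only [← Finset.prod_mul_distrib]
      refine Finset.prod_congr rfl fun j _ => ?_
      rcases le_total (x j) (y j) with h | h <;> simp [h, mul_comm]
    have e2 : s t x ≤ s t (x ⊓ y) := Finset.sum_le_sum fun j _ =>
      one_div_le_one_div_of_le (by linarith [mem_O.1 c1 j]) (by simp)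
    have e3 : ∏ j, (x j + t) + ε * s t x ≤ ∏ j, ((x ⊔ y) j + t) + ε * s t (x ⊔ y) := by
      have g1 := prod_gain Finset.univ (fun j => x j + t) (fun j => (x ⊔ y) j - x j) t ht
        (fun j => by linarith [mem_O.1 hx j]) (fun j => by simp)
      have g2 : t ^ 2 * (s t x - s t (x ⊔ y)) ≤ ∑ j, ((x ⊔ y) j - x j) := by
        unfold s
        rw [← Finset.sum_sub_distrib, Finset.mul_sum]
        refine Finset.sum_le_sum fun j _ => ?_
        have a1 := mem_O.1 hx j
        have a2 : x j ≤ (x ⊔ y) j := by simp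
        generalize (x ⊔ y) j = z at a2
        rw [div_sub_div _ _ (by linarith) (by linarith), ← mul_div_assoc,
          div_le_iff₀ (by nlinarith)]
        have : t ^ 2 ≤ (x j + t) * (z + t) := by nlinarith
        nlinarith
      simp only [Finset.card_univ, Fintype.card_fin] at g1
      have g3 : ∏ j, (x j + t + ((x ⊔ y) j - x j)) = ∏ j, ((x ⊔ y) j + t) :=
        Finset.prod_congr rfl fun j _ => by ring
      rw [g3] at g1
      have g4 := mul_le_mul_of_nonneg_left g2 (pow_pos ht n).le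
      refine le_of_mul_le_mul_left ?_ ht
      rw [hε, pow_succ]; nlinarith
    have p1 : 0 ≤ ∏ j, (x j + t) + ε * s t x := add_nonneg
      (Finset.prod_nonneg fun j _ => by linarith [mem_O.1 hx j]) (mul_nonneg ε0.le (s_bd ht hx).1)
    calc (s t x * u x + ε * (s t x ^ 2 * v x)) * v y
        = (v x * v y) * (s t x * (∏ j, (x j + t) + ε * s t x)) := by rw [uv x hx]; ring
      _ ≤ (v (x ⊓ y) * v (x ⊔ y)) *
          (s t (x ⊓ y) * (∏ j, ((x ⊔ y) j + t) + ε * s t (x ⊔ y))) := by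
        rw [e1]
        exact mul_le_mul_of_nonneg_left (mul_le_mul e2 e3 p1 (s_bd ht c1).1)
          (mul_nonneg (gv.nn _ c1) (gv.nn _ c2))
      _ = _ := by rw [uv _ c2]; ring)
  rw [(add gsu gssv).2, (add gu gsv).2] at key
  have cv : ContinuousOn v (O n) := by
    rw [hv]
    refine continuousOn_finsetProd _ fun j _ => ContinuousOn.inv₀ (by fun_prop) fun x hx => ?_
    exact (Real.sqrt_pos.2 (by linarith [mem_O.1 hx j])).ne'
  have cs : ContinuousOn (s t) (O n) := continuousOn_finsetSum _ fun j _ =>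
    ContinuousOn.div continuousOn_const (by fun_prop) fun x hx => by linarith [mem_O.1 hx j]
  have vp : ∀ x ∈ O n, v x ≠ 0 := fun x hx => by
    rw [hv]
    exact Finset.prod_ne_zero_iff.2 fun j _ =>
      inv_ne_zero (Real.sqrt_pos.2 (by linarith [mem_O.1 hx j])).ne'
  have pt : ∀ c : ℝ, 0 < c → (fun j : Fin n => (j : ℝ) + c) ∈ O n ∧
      Function.Injective fun j : Fin n => (j : ℝ) + c := fun c hc =>
    ⟨mem_O.2 fun j => by positivity, fun i j h => Fin.ext (by simpa using h)⟩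
  have hF := int_pos v cv gv.nn gv.int _ (pt 1 one_pos).1 (pt 1 one_pos).2 (vp _ (pt 1 one_pos).1)
  obtain ⟨A, hA⟩ : ∃ A, A = ∫ x in O n, W x * (s t x * u x) := ⟨_, rfl⟩
  obtain ⟨B, hB⟩ : ∃ B, B = ∫ x in O n, W x * (s t x * v x) := ⟨_, rfl⟩
  obtain ⟨C, hC⟩ : ∃ C, C = ∫ x in O n, W x * (s t x ^ 2 * v x) := ⟨_, rfl⟩
  obtain ⟨D, hD⟩ : ∃ D, D = ∫ x in O n, W x * v x := ⟨_, rfl⟩
  obtain ⟨E, hE⟩ : ∃ E, E = ∫ x in O n, W x * u x := ⟨_, rfl⟩
  rw [← hA, ← hB, ← hC, ← hD, ← hE] at key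
  rw [← hD] at hF
  have var : 0 < C - 2 * (B / D) * B + (B / D) ^ 2 * D := by
    have e : (fun x => W x * ((s t x - B / D) ^ 2 * v x)) = fun x =>
        W x * (s t x ^ 2 * v x) - 2 * (B / D) * (W x * (s t x * v x)) +
          (B / D) ^ 2 * (W x * v x) := by funext x; ring
    have i1 : IntegrableOn (fun x => W x * (s t x ^ 2 * v x) -
        2 * (B / D) * (W x * (s t x * v x))) (O n) :=
      gssv.int.sub (gsv.int.const_mul (2 * (B / D)))
    have i2 := gv.int.const_mul ((B / D) ^ 2)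
    obtain ⟨c, hc, hne⟩ : ∃ c : ℝ, 0 < c ∧ s t (fun j : Fin n => (j : ℝ) + c) ≠ B / D := by
      by_contra hh
      push Not at hh
      have l : s t (fun j : Fin n => (j : ℝ) + 2) < s t (fun j : Fin n => (j : ℝ) + 1) :=
        Finset.sum_lt_sum_of_nonempty ⟨⟨0, hn⟩, Finset.mem_univ _⟩ fun j _ =>
          one_div_lt_one_div_of_lt (by positivity) (by linarith)
      rw [hh 1 one_pos, hh 2 two_pos] at l
      exact lt_irrefl _ l
    have := int_pos (fun x => (s t x - B / D) ^ 2 * v x)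
      (((cs.sub continuousOn_const).pow 2).mul cv)
      (fun x hx => mul_nonneg (sq_nonneg _) (gv.nn x hx)) (by rw [e]; exact i1.add i2) _
      (pt c hc).1 (pt c hc).2
      (mul_ne_zero (pow_ne_zero _ (sub_ne_zero.2 hne)) (vp _ (pt c hc).1))
    rwa [e, integral_add i1 i2, integral_sub gssv.int (gsv.int.const_mul _), integral_const_mul,
      integral_const_mul, ← hB, ← hC, ← hD] at this
  have hH : H n t = D * A - B * E := by
    simp only [H, QO]
    have inner : ∀ x ∈ O n, ∫ y in O n, P x * P y * (∑ j, (1 / (x j + t) - 1 / (y j + t))) *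
        ∏ j, √((x j + t) / (y j + t)) = D * (W x * (s t x * u x)) - B * (W x * u x) := by
      intro x hx
      rw [setIntegral_congr_fun mO (g := fun y => (W x * (s t x * u x)) * (W y * v y) -
        (W x * u x) * (W y * (s t y * v y))), integral_sub (gv.int.const_mul _)
        (gsv.int.const_mul _), integral_const_mul, integral_const_mul, ← hD, ← hB]
      · ring
      intro y hy
      have e : ∏ j, √((x j + t) / (y j + t)) = u x * v y := by
        rw [hu, hv, ← Finset.prod_mul_distrib]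
        exact Finset.prod_congr rfl fun j _ => by
          rw [Real.sqrt_div' _ (by linarith [mem_O.1 hy j]), div_eq_mul_inv]
      show W x * W y * _ * _ = _
      rw [e, Finset.sum_sub_distrib]; unfold s; ring
    rw [setIntegral_congr_fun mO inner, integral_sub (gsu.int.const_mul _) (gu.int.const_mul _),
      integral_const_mul, integral_const_mul, ← hA, ← hE]
  have e : C - 2 * (B / D) * B + (B / D) ^ 2 * D = (C * D - B ^ 2) / D := by field_simp; ring
  rw [e, div_pos_iff_of_pos_right hF] at var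
  rw [hH]; nlinarith [mul_pos ε0 var]

theorem result (n : ℕ) (hn : 1 ≤ n) :
    (∀ t, 0 ≤ t → IntegrableOn (fun x => P x * ∏ j, (√(x j + t))⁻¹) (Q n) ∧
      IntegrableOn (fun x => P x * ∏ j, √(x j + t)) (Q n)) ∧
    AntitoneOn (fun t => F n t * G n t) (Ici 0) ∧ ∀ t, 0 < t → H n t < 0 := by
  refine ⟨fun t ht => ?_, anti n, neg n hn⟩
  unfold IntegrableOn
  rw [QO]
  exact ⟨(good1 ht).1.int, (good1 ht).2.int⟩

end Pool.Agent.Results.MP_58c014_an.Decreasing
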